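import Pool.Agent.W586.SK.Stm2
import Pool.Agent.W380.SX.Borell

/-! `SX-TAIL`: exponential tail of the `ℓ¹` norm. -/

set_option autoImplicit false

namespace Pool.Agent.W380.SX

open MeasureTheory Set
open scoped ENNReal
open Pool.Agent.H212R2.KLS (mu Bdd)
open Pool.Agent.W586.SK (E nm)
open Pool.Agent.W586.SX

theorem nm_add {n : ℕ} (x y : E n) : nm (x + y) ≤ nm x + nm y := by
  unfold nm
  rw [← Finset.sum_add_distrib]
  exact Finset.sum_le_sum fun j _ => abs_add_le _ _

theorem nm_smul {n : ℕ} (c : ℝ) (x : E n) : nm (c • x) = |c| * nm x := by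
  unfold nm
  rw [Finset.mul_sum]
  refine Finset.sum_congr rfl fun j _ => ?_
  rw [PiLp.smul_apply, smul_eq_mul, abs_mul]

theorem nm_cont {n : ℕ} : Continuous (nm : E n → ℝ) := by
  unfold nm
  refine continuous_finset_sum _ fun j _ => ?_
  exact (EuclideanSpace.proj j : E n →L[ℝ] ℝ).continuous.abs

theorem nm_nonneg {n : ℕ} (x : E n) : 0 ≤ nm x := Finset.sum_nonneg fun _ _ => abs_nonneg _

theorem nm_sq {n : ℕ} (x : E n) : nm x ^ 2 ≤ n * ∑ i, x i ^ 2 := by
  unfold nm
  have h := sq_sum_le_card_mul_sum_sq (s := (Finset.univ : Finset (Fin n))) (f := fun j => |x j|)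
  simpa using h

theorem tail : S_TAIL := by
  intro n ρ hn hS hB h1 s hs hx t ht
  have hfin : IsFiniteMeasure (mu ρ) := ⟨by rw [h1]; exact ENNReal.one_lt_top⟩
  have hn0 : (0 : ℝ) < n := by exact_mod_cast hn
  obtain ⟨R, hR⟩ := hB
  have hae : ∀ᵐ x ∂(mu ρ), ‖x‖ ≤ R := by
    rw [ae_iff]
    have hset : {x : E n | ¬ ‖x‖ ≤ R} = {x | R < ‖x‖} := by
      ext x; simp
    rw [hset]
    have hms : MeasurableSet {x : E n | R < ‖x‖} :=
      measurableSet_lt measurable_const measurable_norm
    unfold mu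
    rw [withDensity_apply _ hms]
    refine (setLIntegral_congr_fun hms (g := fun _ => 0) fun x hx => ?_).trans (by simp)
    simp only
    rw [hR x hx, ENNReal.ofReal_zero]
  have hcoord : ∀ i : Fin n, Continuous fun x : E n => x i := fun i =>
    (EuclideanSpace.proj i : E n →L[ℝ] ℝ).continuous
  have hint : ∀ i : Fin n, Integrable (fun x : E n => x i ^ 2) (mu ρ) := by
    intro i
    refine Integrable.of_bound ((hcoord i).pow 2).aestronglyMeasurable (R ^ 2) ?_
    filter_upwards [hae] with x hx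
    rw [Real.norm_eq_abs, abs_of_nonneg (sq_nonneg _)]
    have h2 : |x i| ≤ ‖x‖ := by
      have := PiLp.norm_apply_le x i
      rwa [Real.norm_eq_abs] at this
    have h3 : |x i| ≤ R := h2.trans hx
    rw [← sq_abs]
    exact pow_le_pow_left₀ (abs_nonneg _) h3 2
  have hintn : Integrable (fun x : E n => nm x ^ 2) (mu ρ) := by
    refine Integrable.mono' ((integrable_finset_sum Finset.univ fun i _ => hint i).const_mul (n : ℝ))
      (nm_cont.pow 2).aestronglyMeasurable ?_
    refine Filter.Eventually.of_forall fun x => ?_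
    rw [Real.norm_eq_abs, abs_of_nonneg (sq_nonneg _)]
    exact nm_sq x
  have hI : ∫ x, nm x ^ 2 ∂(mu ρ) ≤ n ^ 2 * s := by
    have h2 : ∫ x, nm x ^ 2 ∂(mu ρ) ≤ ∫ x, n * ∑ i, x i ^ 2 ∂(mu ρ) :=
      integral_mono hintn ((integrable_finset_sum Finset.univ fun i _ => hint i).const_mul (n : ℝ))
        fun x => nm_sq x
    rw [integral_const_mul, integral_finset_sum _ fun i _ => hint i] at h2
    have h3 : ∑ i : Fin n, ∫ x, x i ^ 2 ∂(mu ρ) ≤ ∑ _i : Fin n, s :=
      Finset.sum_le_sum fun i _ => hx i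
    rw [Finset.sum_const, Finset.card_univ, Fintype.card_fin, nsmul_eq_mul] at h3
    calc ∫ x, nm x ^ 2 ∂(mu ρ) ≤ n * ∑ i : Fin n, ∫ x, x i ^ 2 ∂(mu ρ) := h2
      _ ≤ n * (n * s) := mul_le_mul_of_nonneg_left h3 hn0.le
      _ = n ^ 2 * s := by ring
  set r : ℝ := 4 * Real.sqrt s * n with hr
  have hr0 : 0 < r := by
    have := Real.sqrt_pos.2 hs
    positivity
  have hr2 : r ^ 2 = 16 * (n ^ 2 * s) := by
    rw [hr]
    have := Real.sq_sqrt hs.le
    calc (4 * Real.sqrt s * n) ^ 2 = 16 * (Real.sqrt s ^ 2) * n ^ 2 := by ring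
      _ = _ := by rw [this]; ring
  have hbad : (mu ρ).real {x : E n | r < nm x} ≤ 1 / 16 := by
    have h2 := mul_meas_ge_le_integral_of_nonneg (μ := mu ρ) (f := fun x : E n => nm x ^ 2)
      (Filter.Eventually.of_forall fun x => sq_nonneg _) hintn (r ^ 2)
    have h3 : (mu ρ).real {x : E n | r < nm x} ≤ (mu ρ).real {x : E n | r ^ 2 ≤ nm x ^ 2} := by
      refine measureReal_mono fun x hx => ?_
      exact pow_le_pow_left₀ hr0.le (le_of_lt hx) 2
    have h4 : r ^ 2 * (mu ρ).real {x : E n | r < nm x} ≤ n ^ 2 * s :=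
      (mul_le_mul_of_nonneg_left h3 (sq_nonneg _)).trans (h2.trans hI)
    rw [hr2] at h4
    have h5 : 0 < (n : ℝ) ^ 2 * s := by positivity
    nlinarith
  have huniv : (mu ρ).real univ = 1 := by
    unfold Measure.real; rw [h1]; rfl
  have hgood : 3 / 4 ≤ (mu ρ).real {x : E n | nm x ≤ r} := by
    have hms : MeasurableSet {x : E n | nm x ≤ r} :=
      measurableSet_le nm_cont.measurable measurable_const
    have h2 := measureReal_compl (μ := mu ρ) hms
    have h3 : {x : E n | nm x ≤ r}ᶜ = {x : E n | r < nm x} := by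
      ext x; simp
    rw [h3, huniv] at h2
    linarith
  have hset : {x : E n | 4 * t * Real.sqrt s * n < nm x} = {x | t * r < nm x} := by
    have : 4 * t * Real.sqrt s * n = t * r := by rw [hr]; ring
    rw [this]
  rw [hset]
  have hreal : (mu ρ).real {x : E n | t * r < nm x} ≤ Real.exp (-(t / 2)) := by
    rcases eq_or_lt_of_le ht with h | h
    · rw [← h, one_mul]
      have h2 : (1 / 16 : ℝ) ≤ Real.exp (-(1 / 2)) := by
        have := Real.add_one_le_exp (-(1 / 2) : ℝ)
        linarith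
      exact hbad.trans h2
    · have h2 := borell ρ hS.nonneg hS.meas hS.logc h1 nm nm_cont.measurable nm_add nm_smul r
        hgood t h
      refine h2.trans (Real.exp_le_exp.2 (by linarith))
  rw [← ENNReal.ofReal_toReal (measure_ne_top (mu ρ) {x : E n | t * r < nm x})]
  exact ENNReal.ofReal_le_ofReal hreal

end Pool.Agent.W380.SX
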